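import Mathlib

/-!
# Primes in chains with real ratios: statements

`CC` = chains `n, ⌊α n⌋, ⌊γ α ^ κ n⌋`, for almost every `α`, `n` in an arbitrary dense set.
-/

set_option autoImplicit false

namespace Pool.Agent.D0H61.CC

open Filter Topology MeasureTheory Finset

/-- `e ^ (i x)` -/
noncomputable def ex (x : ℝ) : ℂ := Complex.exp ((x : ℂ) * Complex.I)

/-- the triangle function -/
noncomputable def tri (x : ℝ) : ℝ := max 0 (1 - |x|)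

/-- the integer `z` is a prime -/
def PP (z : ℤ) : Prop := z.toNat.Prime

open Classical in
/-- the number of the `n` in `G` such that `⌊α n⌋ + a` and `⌊γ α ^ κ n⌋ + b` are primes -/
noncomputable def Mc (κ γ : ℝ) (a b : ℤ) (G : Finset ℕ) (α : ℝ) : ℕ :=
  (G.filter fun n : ℕ => PP (⌊α * n⌋ + a) ∧ PP (⌊γ * α ^ κ * n⌋ + b)).card

open Classical in
/-- the elements of `A` up to `N` -/
noncomputable def upTo (A : Set ℕ) (N : ℕ) : Finset ℕ := (Icc 1 N).filter (· ∈ A)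

/-- for infinitely many `N` the set `A` has at least `N / (log N) ^ C` elements up to `N` -/
def Big (C : ℕ) (A : Set ℕ) : Prop := ∃ᶠ N : ℕ in atTop, (N : ℝ) ≤ (upTo A N).card * Real.log N ^ C

/-! ### first moment -/

/-- **TRI**: the triangle function is the Fourier transform of a non-negative integrable function (Fejér).
`K ξ = (sin (π ξ) / (π ξ)) ^ 2`. -/
def S_TRI : Prop := ∃ K : ℝ → ℝ, Continuous K ∧ Integrable K ∧ (∀ ξ, 0 ≤ K ξ) ∧ (∀ ξ, ξ ^ 2 * K ξ ≤ 1) ∧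
  ∀ x : ℝ, ((tri x : ℝ) : ℂ) = ∫ ξ, (K ξ : ℂ) * ex (2 * Real.pi * x * ξ)

/-- **MS**: mean square. Expand the square: `∑ c n c m tri (μ (log n - log m))`, and `tri` vanishes unless
`|n - m| ≤ Y / |μ|`. -/
def S_MS : Prop := ∀ K : ℝ → ℝ, Continuous K → Integrable K → (∀ ξ, 0 ≤ K ξ) →
  (∀ x : ℝ, ((tri x : ℝ) : ℂ) = ∫ ξ, (K ξ : ℂ) * ex (2 * Real.pi * x * ξ)) →
  ∀ (G : Finset ℕ) (c : ℕ → ℝ) (L Y μ : ℝ), (∀ n ∈ G, 0 < n ∧ (n : ℝ) ≤ Y ∧ |c n| ≤ L) → μ ≠ 0 →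
    ∫ ξ, K ξ * ‖∑ n ∈ G, (c n : ℂ) * ex (2 * Real.pi * μ * ξ * Real.log n)‖ ^ 2 ≤
      L ^ 2 * G.card * (2 * Y / |μ| + 1)

open Classical in
/-- the primes in `(y₁, y₂]` -/
noncomputable def prs (y₁ y₂ : ℝ) : Finset ℕ := (Icc 1 ⌊y₂⌋₊).filter fun p => p.Prime ∧ y₁ < p

/-- **ZP**: twisted sums over primes against the integral, for all frequencies up to a power of `N`.
From `Pool.Agent.D0H91.MG.tb_neg` (Vinogradov-Korobov, `tb m = log p - 1` resp. `-1`), `Pool.Agent.D0H91.US.zsum`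
(`∑ n ^ (i t)` is small for `√N ≤ |t| ≤ N ^ K`) and, for `|τ| ≤ √N`, the comparison of
`∑ n ^ (i τ)` with `∫ x ^ (i τ) dx` (error `O ((1 + |τ|) log N)`). -/
def S_ZP : Prop := ∀ (R : ℝ), 1 ≤ R → ∀ (A K : ℕ), ∀ᶠ N : ℕ in atTop, ∀ (y₁ y₂ τ : ℝ), N / R ≤ y₁ → y₁ ≤ y₂ →
  y₂ ≤ R * N → |τ| ≤ (N : ℝ) ^ A →
    ‖(∑ p ∈ prs y₁ y₂, ((Real.log p : ℝ) : ℂ) * ex (τ * Real.log p)) - ∫ x in y₁..y₂, ex (τ * Real.log x)‖ ≤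
      N / Real.log N ^ K

open Classical in
/-- the pairs `(n, p)`, `n ∈ G`, `p` a prime in `(y₁, y₂]`, such that for some prime `r`
`|φ + κ log p + (1 - κ) log n - log r| ≤ δ / N` -/
noncomputable def prsG (κ φ δ y₁ y₂ : ℝ) (N : ℕ) (G : Finset ℕ) : Finset (ℕ × ℕ) :=
  (G ×ˢ prs y₁ y₂).filter fun x => ∃ r : ℕ, r.Prime ∧
    |φ + κ * Real.log x.2 + (1 - κ) * Real.log x.1 - Real.log r| ≤ δ / N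

/-- **CNT** (from TRI, MS, ZP). -/
def S_CNT : Prop := ∀ κ : ℝ, κ ≠ 0 → κ ≠ 1 → ∀ R : ℝ, 1 ≤ R → ∃ c : ℝ, 0 < c ∧ ∀ (C : ℕ) (δ η : ℝ), 0 < δ → δ ≤ 1 →
  0 < η → ∀ᶠ N : ℕ in atTop, ∀ G : Finset ℕ, (∀ n ∈ G, N < n ∧ n ≤ 2 * N) → (N : ℝ) ≤ G.card * Real.log N ^ C →
  ∀ φ y₁ y₂ : ℝ, |φ| ≤ R → N / R ≤ y₁ → y₁ + η * N ≤ y₂ → y₂ ≤ R * N →
    c * δ * (y₂ - y₁) * G.card / Real.log N ^ 2 ≤ (prsG κ φ δ y₁ y₂ N G).card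

/-- **FM**: the first moment. -/
def S_FM : Prop := ∀ (κ γ : ℝ) (a b : ℤ) (R : ℝ), κ ≠ 0 → κ ≠ 1 → 0 < γ → 1 ≤ R →
  ∃ c : ℝ, 0 < c ∧ ∃ η₀ : ℝ, 0 < η₀ ∧ η₀ ≤ 1 ∧ ∀ (C : ℕ) (α₀ η : ℝ), 1 / R ≤ α₀ → α₀ ≤ R → 0 < η → η ≤ η₀ →
  ∀ᶠ N : ℕ in atTop, ∀ G : Finset ℕ, (∀ n ∈ G, N < n ∧ (n : ℝ) ≤ (1 + η) * N) →
    (N : ℝ) ≤ G.card * Real.log N ^ C →
    c * η * G.card / Real.log N ^ 2 ≤ ∫ α in Set.Icc α₀ (α₀ * (1 + 3 * η)), (Mc κ γ a b G α : ℝ)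

/-- **GEO**: elementary geometry of the intervals of `α`. -/
def S_GEO : Prop := S_CNT → S_FM

/-! ### upper bound -/

/-- **OSC**: van der Corput's lemma. -/
def S_OSC : Prop := ∀ (κ R : ℝ), κ ≠ 0 → κ ≠ 1 → 1 ≤ R → ∃ C : ℝ, 0 < C ∧
  (∀ u v : ℝ, v ≠ 0 → ‖∫ α in (1 / R)..R, ex (u * α + v * α ^ κ)‖ ≤ C / √|v|) ∧
  (∀ u : ℝ, u ≠ 0 → ‖∫ α in (1 / R)..R, ex (u * α)‖ ≤ 2 / |u|)

/-- **LO**: mean values of exponential sums over arbitrary sets (Cauchy-Schwarz, expand the square, OSC). -/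
def S_LO : Prop := ∀ (κ R : ℝ), κ ≠ 0 → κ ≠ 1 → 1 ≤ R → ∃ C : ℝ, 0 < C ∧
  ∀ (N : ℕ) (G : Finset ℕ), 1 ≤ N → (∀ n ∈ G, N < n ∧ n ≤ 2 * N) → ∀ u v q : ℝ, 1 ≤ q →
    (1 / q ≤ |v| ∨ (v = 0 ∧ 1 / q ≤ |u|)) →
    ∫ α in Set.Icc (1 / R) R, ‖∑ n ∈ G, ex (n * (u * α + v * α ^ κ))‖ ≤ C * q * (N : ℝ) ^ (3 / 4 : ℝ)

/-- the periodic sum of hats -/
noncomputable def hat (q : ℕ) (y : ℝ) : ℝ := ∑' k : ℤ, 2 * tri (y - q * k - 1 / 2)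

/-- **HAT**: Fourier series of `hat q` (absolutely convergent, uniformly in `q`). -/
def S_HAT : Prop := ∀ q : ℕ, 1 ≤ q → ∃ c : ℤ → ℂ, Summable (fun h => ‖c h‖) ∧ ∑' h, ‖c h‖ ≤ 10 ∧
  c 0 = ((2 / q : ℝ) : ℂ) ∧ ∀ y : ℝ, ((hat q y : ℝ) : ℂ) = ∑' h : ℤ, c h * ex (2 * Real.pi * h * y / q)

/-- **SV** (from LO and HAT, Selberg's weights): the upper bound sieve in mean over `α`. -/
def S_SV : Prop := ∀ (κ γ : ℝ) (a b : ℤ) (R : ℝ), κ ≠ 0 → κ ≠ 1 → 0 < γ → 1 ≤ R →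
  ∃ C : ℝ, 0 < C ∧ ∃ c : ℝ, 0 < c ∧ c ≤ 1 ∧ ∀ᶠ N : ℕ in atTop, ∀ G : Finset ℕ, (∀ n ∈ G, N < n ∧ n ≤ 2 * N) →
    ∀ B : Set ℝ, MeasurableSet B → B ⊆ Set.Icc (1 / R) R →
      ∫ α in B, (Mc κ γ a b G α : ℝ) ≤ C * G.card / Real.log N ^ 2 * (volume B).toReal + (N : ℝ) ^ (1 - c)

/-! ### almost every `α` -/

/-- **CORE** (from FM and SV). -/
def S_CORE : Prop := ∀ (κ γ : ℝ) (a b : ℤ) (R : ℝ), κ ≠ 0 → κ ≠ 1 → 0 < γ → 1 ≤ R →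
  ∃ c : ℝ, 0 < c ∧ ∃ η₀ : ℝ, 0 < η₀ ∧ η₀ ≤ 1 ∧ ∀ (C : ℕ) (α₀ η : ℝ), 1 / R ≤ α₀ → α₀ ≤ R → 0 < η → η ≤ η₀ →
  ∀ᶠ N : ℕ in atTop, ∀ G : Finset ℕ, (∀ n ∈ G, N < n ∧ (n : ℝ) ≤ (1 + η) * N) →
    (N : ℝ) ≤ G.card * Real.log N ^ C →
    ENNReal.ofReal (c * η) ≤ volume {α : ℝ | α ∈ Set.Icc α₀ (α₀ * (1 + 3 * η)) ∧
      (G.card : ℝ) ≤ Mc κ γ a b G α * Real.log N ^ 3}

/-- **DEN**: consequence of Lebesgue's density theorem. -/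
def S_DEN : Prop := ∀ E : Set ℝ, MeasurableSet E →
  (∀ R : ℝ, 1 ≤ R → ∃ c : ℝ, 0 < c ∧ ∃ η₀ : ℝ, 0 < η₀ ∧ ∀ α₀ η : ℝ, 1 / R ≤ α₀ → α₀ ≤ R → 0 < η → η ≤ η₀ →
    ENNReal.ofReal (c * η) ≤ volume (E ∩ Set.Icc α₀ (α₀ * (1 + 3 * η)))) → ∀ᵐ α : ℝ, 0 < α → α ∈ E

open Classical in
/-- **WIN**: short windows with many elements. -/
def S_WIN : Prop := ∀ (C : ℕ) (A : Set ℕ), Big C A → ∀ η : ℝ, 0 < η → η ≤ 1 →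
  ∃ᶠ N : ℕ in atTop, (N : ℝ) ≤
    (((Icc 1 (2 * N)).filter fun n : ℕ => n ∈ A ∧ N < n ∧ (n : ℝ) ≤ (1 + η) * N).card : ℝ) *
      Real.log N ^ (C + 1)

/-- **ONE** (from CORE, DEN, WIN). -/
def S_ONE : Prop := ∀ (C : ℕ) (A : Set ℕ), Big C A → ∀ (κ γ : ℝ) (a b : ℤ), κ ≠ 0 → κ ≠ 1 → 0 < γ →
  ∀ᵐ α : ℝ, 0 < α → Big (C + 5) {n : ℕ | n ∈ A ∧ PP (⌊α * n⌋ + a) ∧ PP (⌊γ * α ^ κ * n⌋ + b)}

/-- **GEN** (from ONE, by a change of variables). -/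
def S_GEN : Prop := ∀ (C : ℕ) (A : Set ℕ), Big C A → ∀ (κ₁ κ₂ γ₁ γ₂ : ℝ) (a b : ℤ), κ₁ ≠ 0 → κ₂ ≠ 0 → κ₁ ≠ κ₂ →
  0 < γ₁ → 0 < γ₂ → ∀ᵐ α : ℝ, 0 < α →
    Big (C + 5) {n : ℕ | n ∈ A ∧ PP (⌊γ₁ * α ^ κ₁ * n⌋ + a) ∧ PP (⌊γ₂ * α ^ κ₂ * n⌋ + b)}

/-- the product of the first `i` terms of the sequence `α₀, α₀, α₁, α₁, α₂, α₂, …` -/
noncomputable def rho {r : ℕ} (α : Fin r → ℝ) (i : ℕ) : ℝ :=
  ∏ k ∈ range i, if h : k / 2 < r then α ⟨k / 2, h⟩ else 1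

/-- **CH** (from GEN, by induction and Fubini's theorem `Pool.Agent.D0H91.MG.fubini_ae'`): chains of length `2 r + 1`
in which every ratio occurs twice, starting in a given set, for almost all ratios. -/
def S_CH : Prop := ∀ (r C : ℕ) (A : Set ℕ), Big C A → ∀ g : ℝ, 0 < g → ∀ b : ℤ,
  ∀ᵐ α : Fin r → ℝ, (∀ i, 0 < α i) →
    Big (C + 5 * r) {n : ℕ | n ∈ A ∧ ∀ i : ℕ, 1 ≤ i → i ≤ 2 * r → PP (⌊g * rho α i * n⌋ + b)}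

end Pool.Agent.D0H61.CC
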