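import Mathlib
import Pool.Agent.D0H61.CC.Stm
import Pool.Agent.D0H91.MG.Fub

/-! CH: chains for almost all ratios, by induction and Fubini's theorem. -/

set_option autoImplicit false

namespace Pool.Agent.D0H61.CC

open Filter Topology MeasureTheory Finset

theorem upTo_card (A : Set ℕ) (N : ℕ) :
    ((upTo A N).card : ℝ) = ∑ n ∈ Icc 1 N, A.indicator (fun _ => (1 : ℝ)) n := by
  classical
  unfold upTo
  rw [Finset.card_filter]
  push_cast
  refine Finset.sum_congr rfl fun n _ => ?_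
  by_cases h : n ∈ A
  · rw [Set.indicator_of_mem h, if_pos h]
  · rw [Set.indicator_of_notMem h, if_neg h]

theorem card_meas {Ω : Type*} [MeasurableSpace Ω] (S : Ω → Set ℕ) (hS : ∀ n, MeasurableSet {ω | n ∈ S ω}) (N : ℕ) :
    Measurable (fun ω => ((upTo (S ω) N).card : ℝ)) := by
  classical
  have e : (fun ω => ((upTo (S ω) N).card : ℝ)) =
      fun ω => ∑ n ∈ Icc 1 N, ({ω | n ∈ S ω}.indicator (fun _ => (1 : ℝ)) ω) := by
    funext ω
    rw [upTo_card]
    refine Finset.sum_congr rfl fun n _ => ?_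
    by_cases h : n ∈ S ω
    · rw [Set.indicator_of_mem h, Set.indicator_of_mem (show ω ∈ {ω | n ∈ S ω} from h)]
    · rw [Set.indicator_of_notMem h, Set.indicator_of_notMem (show ω ∉ {ω | n ∈ S ω} from h)]
  rw [e]
  exact Finset.measurable_sum _ fun n _ => Measurable.indicator measurable_const (hS n)

theorem big_meas {Ω : Type*} [MeasurableSpace Ω] (C : ℕ) (S : Ω → Set ℕ)
    (hS : ∀ n, MeasurableSet {ω | n ∈ S ω}) : MeasurableSet {ω | Big C (S ω)} := by
  have e : {ω | Big C (S ω)} = ⋂ N0 : ℕ, ⋃ N : ℕ, ⋃ (_ : N0 ≤ N),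
      {ω | (N : ℝ) ≤ (upTo (S ω) N).card * Real.log N ^ C} := by
    ext ω
    rw [Set.mem_iInter]
    change Big C (S ω) ↔ _
    unfold Big
    rw [frequently_atTop]
    refine forall_congr' fun N0 => ?_
    simp only [Set.mem_iUnion]
    constructor
    · rintro ⟨N, h1, h2⟩
      exact ⟨N, h1, h2⟩
    · rintro ⟨N, h1, h2⟩
      exact ⟨N, h1, h2⟩
  rw [e]
  refine MeasurableSet.iInter fun N0 => MeasurableSet.iUnion fun N => MeasurableSet.iUnion fun _ => ?_
  exact measurableSet_le measurable_const ((card_meas S hS N).mul_const _)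

theorem Big.congr {C : ℕ} {A B : Set ℕ} (h : A = B) (hA : Big C A) : Big C B := h ▸ hA

theorem rho_zero {r : ℕ} (α : Fin r → ℝ) : rho α 0 = 1 := by
  unfold rho
  simp

theorem rho_cons_one {r : ℕ} (t : ℝ) (β : Fin r → ℝ) : rho (Fin.cons t β : Fin (r + 1) → ℝ) 1 = t := by
  unfold rho
  rw [Finset.prod_range_one]
  rw [dif_pos (by omega : 0 / 2 < r + 1)]
  rfl

theorem rho_cons {r : ℕ} (t : ℝ) (β : Fin r → ℝ) (i : ℕ) :
    rho (Fin.cons t β : Fin (r + 1) → ℝ) (i + 2) = t ^ 2 * rho β i := by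
  unfold rho
  rw [Finset.prod_range_succ', Finset.prod_range_succ']
  have e0 : (if h : 0 / 2 < r + 1 then (Fin.cons t β : Fin (r + 1) → ℝ) ⟨0 / 2, h⟩ else 1) = t := by
    rw [dif_pos (by omega : 0 / 2 < r + 1)]
    rfl
  have e2 : ∏ k ∈ range i, (if h : (k + 1 + 1) / 2 < r + 1 then
      (Fin.cons t β : Fin (r + 1) → ℝ) ⟨(k + 1 + 1) / 2, h⟩ else 1) =
      ∏ k ∈ range i, if h : k / 2 < r then β ⟨k / 2, h⟩ else 1 := by
    refine Finset.prod_congr rfl fun k _ => ?_
    have hk : (k + 1 + 1) / 2 = k / 2 + 1 := by omega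
    by_cases h : k / 2 < r
    · rw [dif_pos h, dif_pos (by omega : (k + 1 + 1) / 2 < r + 1)]
      have : (⟨(k + 1 + 1) / 2, by omega⟩ : Fin (r + 1)) = Fin.succ ⟨k / 2, h⟩ := by
        apply Fin.ext
        simp only [Fin.val_succ]
        exact hk
      rw [this, Fin.cons_succ]
    · rw [dif_neg h, dif_neg (by omega)]
  have e4 : ∀ j : ℕ, j / 2 = 0 → (if h : j / 2 < r + 1 then (Fin.cons t β : Fin (r + 1) → ℝ) ⟨j / 2, h⟩ else 1) = t := by
    intro j hj
    rw [dif_pos (by omega : j / 2 < r + 1)]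
    have : (⟨j / 2, by omega⟩ : Fin (r + 1)) = 0 := by
      apply Fin.ext
      exact hj
    rw [this]
    rfl
  rw [e2, e4 (0 + 1) (by omega)]
  ring

theorem rho_meas {r : ℕ} (i : ℕ) : Measurable (fun α : Fin r → ℝ => rho α i) := by
  unfold rho
  refine Finset.measurable_prod _ fun k _ => ?_
  by_cases h : k / 2 < r
  · simp only [dif_pos h]
    exact measurable_pi_apply _
  · simp only [dif_neg h]
    exact measurable_const

/-- the set of the problem -/
def chS (A : Set ℕ) (g : ℝ) (b : ℤ) {r : ℕ} (α : Fin r → ℝ) : Set ℕ :=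
  {n : ℕ | n ∈ A ∧ ∀ i : ℕ, 1 ≤ i → i ≤ 2 * r → PP (⌊g * rho α i * n⌋ + b)}

theorem chS_meas (A : Set ℕ) (g : ℝ) (b : ℤ) {r : ℕ} (n : ℕ) :
    MeasurableSet {α : Fin r → ℝ | n ∈ chS A g b α} := by
  by_cases hn : n ∈ A
  · have e : {α : Fin r → ℝ | n ∈ chS A g b α} =
        ⋂ i : ℕ, ⋂ (_ : 1 ≤ i), ⋂ (_ : i ≤ 2 * r), {α : Fin r → ℝ | PP (⌊g * rho α i * n⌋ + b)} := by
      ext α
      simp only [Set.mem_iInter]
      constructor
      · intro h i h1 h2
        exact h.2 i h1 h2
      · intro h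
        exact ⟨hn, h⟩
    rw [e]
    refine MeasurableSet.iInter fun i => MeasurableSet.iInter fun _ => MeasurableSet.iInter fun _ => ?_
    have h2 : Measurable fun α : Fin r → ℝ => ⌊g * rho α i * n⌋ :=
      (((rho_meas i).const_mul g).mul_const _).floor
    exact h2 (MeasurableSet.of_discrete (s := {z : ℤ | PP (z + b)}))
  · have e : {α : Fin r → ℝ | n ∈ chS A g b α} = ∅ := by
      ext α
      constructor
      · intro h
        exact absurd h.1 hn
      · intro h
        exact absurd h (Set.notMem_empty _)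
    rw [e]
    exact MeasurableSet.empty

theorem chS_cons (A : Set ℕ) (g : ℝ) (b : ℤ) {r : ℕ} (t : ℝ) (β : Fin r → ℝ) :
    chS A g b (Fin.cons t β : Fin (r + 1) → ℝ) =
      chS {n : ℕ | n ∈ A ∧ PP (⌊g * t ^ (1 : ℝ) * n⌋ + b) ∧ PP (⌊g * t ^ (2 : ℝ) * n⌋ + b)} (g * t ^ 2) b β := by
  ext n
  have e1 : g * rho (Fin.cons t β : Fin (r + 1) → ℝ) 1 = g * t ^ (1 : ℝ) := by
    rw [rho_cons_one, Real.rpow_one]
  have e2 : g * rho (Fin.cons t β : Fin (r + 1) → ℝ) 2 = g * t ^ (2 : ℝ) := by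
    have := rho_cons t β 0
    rw [rho_zero, mul_one] at this
    rw [this, Real.rpow_two]
  have e3 : ∀ i : ℕ, g * rho (Fin.cons t β : Fin (r + 1) → ℝ) (i + 2) = g * t ^ 2 * rho β i := by
    intro i
    rw [rho_cons]
    ring
  constructor
  · rintro ⟨h1, h2⟩
    refine ⟨⟨h1, ?_, ?_⟩, fun i hi1 hi2 => ?_⟩
    · have := h2 1 le_rfl (by omega)
      rwa [e1] at this
    · have := h2 2 (by omega) (by omega)
      rwa [e2] at this
    · have := h2 (i + 2) (by omega) (by omega)
      rwa [e3] at this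
  · rintro ⟨⟨h1, h2, h3⟩, h4⟩
    refine ⟨h1, fun i hi1 hi2 => ?_⟩
    rcases Nat.lt_or_ge i 3 with h | h
    · interval_cases i
      · rwa [e1]
      · rwa [e2]
    · obtain ⟨j, rfl⟩ : ∃ j, i = j + 2 := ⟨i - 2, by omega⟩
      rw [e3]
      exact h4 j (by omega) (by omega)

theorem t_CH (hG : S_GEN) : S_CH := by
  intro r
  induction r with
  | zero =>
    intro C A hA g hg b
    refine Filter.Eventually.of_forall fun α _ => ?_
    have e : {n : ℕ | n ∈ A ∧ ∀ i : ℕ, 1 ≤ i → i ≤ 2 * 0 → PP (⌊g * rho α i * n⌋ + b)} = A := by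
      ext n
      constructor
      · exact fun h => h.1
      · exact fun h => ⟨h, fun i h1 h2 => by omega⟩
    rw [e]
    exact hA
  | succ r ih =>
    intro C A hA g hg b
    have hm : MeasurableSet {α : Fin (r + 1) → ℝ | (∀ i, 0 < α i) → Big (C + 5 * (r + 1)) (chS A g b α)} := by
      have h1 : MeasurableSet {α : Fin (r + 1) → ℝ | ∀ i, 0 < α i} := by
        have e : {α : Fin (r + 1) → ℝ | ∀ i, 0 < α i} = ⋂ i, {α : Fin (r + 1) → ℝ | 0 < α i} := by
          ext α
          simp only [Set.mem_iInter]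
          exact Iff.rfl
        rw [e]
        exact MeasurableSet.iInter fun i => measurableSet_lt measurable_const (measurable_pi_apply i)
      have h2 : MeasurableSet {α : Fin (r + 1) → ℝ | Big (C + 5 * (r + 1)) (chS A g b α)} :=
        big_meas _ _ fun n => chS_meas A g b n
      have e : {α : Fin (r + 1) → ℝ | (∀ i, 0 < α i) → Big (C + 5 * (r + 1)) (chS A g b α)} =
          {α : Fin (r + 1) → ℝ | ∀ i, 0 < α i}ᶜ ∪ {α : Fin (r + 1) → ℝ | Big (C + 5 * (r + 1)) (chS A g b α)} := by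
        ext α
        rw [Set.mem_union, Set.mem_compl_iff]
        exact imp_iff_not_or
      rw [e]
      exact h1.compl.union h2
    refine Pool.Agent.D0H91.MG.fubini_ae' hm ?_
    filter_upwards [hG C A hA 1 2 g g b b one_ne_zero two_ne_zero (by norm_num) hg hg] with t ht
    by_cases ht0 : 0 < t
    · filter_upwards [ih (C + 5) _ (ht ht0) (g * t ^ 2) (by positivity) b] with β hβ hpos
      have h1 : ∀ i, 0 < β i := by
        intro i
        have := hpos i.succ
        rwa [Fin.cons_succ] at this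
      have h2 := hβ h1
      change Big (C + 5 * (r + 1)) (chS A g b (Fin.cons t β : Fin (r + 1) → ℝ))
      rw [chS_cons]
      have e : C + 5 * (r + 1) = C + 5 + 5 * r := by ring
      rw [e]
      exact h2
    · refine Filter.Eventually.of_forall fun β hpos => ?_
      exact absurd (by simpa using hpos 0) ht0

end Pool.Agent.D0H61.CC
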