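import Mathlib
import Pool.Agent.D0H61.CC.Ch

/-! From GEN to the final statement. -/

set_option autoImplicit false

namespace Pool.Agent.D0H61.CC

open Filter Topology MeasureTheory Finset

theorem PP_floor {x : ℝ} (hx : 0 ≤ x) : PP (⌊x⌋ + 1) ↔ (⌊x⌋₊ + 1).Prime := by
  unfold PP
  have h1 : (⌊x⌋ + 1).toNat = ⌊x⌋₊ + 1 := by
    have h2 : 0 ≤ ⌊x⌋ := Int.floor_nonneg.2 hx
    have h3 : (⌊x⌋₊ : ℤ) = ⌊x⌋ := Int.natCast_floor_eq_floor hx
    omega
  rw [h1]

theorem mem_upTo {A : Set ℕ} {N n : ℕ} : n ∈ upTo A N ↔ (1 ≤ n ∧ n ≤ N) ∧ n ∈ A := by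
  classical
  unfold upTo
  rw [Finset.mem_filter, Finset.mem_Icc]

/-- the numbers `p - 1` are a big set -/
theorem big_primes : Big 2 {n : ℕ | (n + 1).Prime} := by
  classical
  unfold Big
  apply Filter.Eventually.frequently
  have hlog : ∀ᶠ N : ℕ in atTop, 4 ≤ Real.log N :=
    (Real.tendsto_log_atTop.comp tendsto_natCast_atTop_atTop).eventually_ge_atTop 4
  have hl2 : ∀ᶠ N : ℕ in atTop, Real.log ((N : ℝ) + 1) ≤ (1 / 8) * N := by
    have h1 : Tendsto (fun x : ℝ => Real.log x / x) atTop (𝓝 0) := by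
      have := (Real.isLittleO_pow_log_id_atTop (n := 1)).tendsto_div_nhds_zero
      simpa using this
    have h2 : Tendsto (fun N : ℕ => (N : ℝ) + 1) atTop atTop :=
      tendsto_atTop_add_const_right _ _ tendsto_natCast_atTop_atTop
    have h3 := h1.comp h2
    filter_upwards [h3.eventually (Iio_mem_nhds (show (0 : ℝ) < 1 / 16 by norm_num)), eventually_ge_atTop 1]
      with N h4 h5
    have hN : (1 : ℝ) ≤ N := by exact_mod_cast h5
    have h6 : Real.log ((N : ℝ) + 1) / ((N : ℝ) + 1) < 1 / 16 := h4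
    rw [div_lt_iff₀ (by linarith)] at h6
    linarith
  filter_upwards [hlog, hl2, eventually_ge_atTop 2] with N h1 h2 h3
  have hN : (2 : ℝ) ≤ N := by exact_mod_cast h3
  have h4 := Chebyshev.psi_ge N
  have h5 := Chebyshev.psi_le_primeCounting_mul_log N
  have h6 : (N.primeCounting : ℝ) ≤ (upTo {n : ℕ | (n + 1).Prime} N).card + 1 := by
    have h7 : N.primeCounting ≤ (upTo {n : ℕ | (n + 1).Prime} N).card + 1 := by
      rw [Nat.primeCounting, Nat.primeCounting', Nat.count_eq_card_filter_range]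
      have h9 : (range (N + 1)).filter Nat.Prime ⊆
          (upTo {n : ℕ | (n + 1).Prime} N).image (fun n => n + 1) := by
        intro p hp
        rw [Finset.mem_filter, Finset.mem_range] at hp
        rw [Finset.mem_image]
        refine ⟨p - 1, ?_, ?_⟩
        · rw [mem_upTo]
          have h9 := hp.2.two_le
          refine ⟨⟨by omega, by omega⟩, ?_⟩
          change (p - 1 + 1).Prime
          rw [show p - 1 + 1 = p by omega]
          exact hp.2
        · have h9 := hp.2.two_le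
          omega
      have h10 := (Finset.card_le_card h9).trans Finset.card_image_le
      refine le_trans (le_of_eq ?_) (h10.trans (Nat.le_succ _))
      congr
    exact_mod_cast h7
  have hlog2 : 0.6931471803 < Real.log 2 := Real.log_two_gt_d9
  set U : ℝ := ((upTo {n : ℕ | (n + 1).Prime} N).card : ℝ)
  set L : ℝ := Real.log N
  have hU : 0 ≤ U := by positivity
  have hLN : L ≤ N := (Real.log_le_sub_one_of_pos (by linarith)).trans (by linarith)
  have hL8 : L ≤ (1 / 8) * N := by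
    refine le_trans ?_ h2
    exact Real.log_le_log (by linarith) (by linarith)
  have h7 : N * Real.log 2 - Real.log ((N : ℝ) + 1) ≤ (U + 1) * L := by
    refine h4.trans (h5.trans ?_)
    exact mul_le_mul_of_nonneg_right h6 (by linarith)
  have h8 : (N : ℝ) / 4 ≤ U * L := by nlinarith
  have h9 : U * L ^ 2 = (U * L) * L := by ring
  rw [h9]
  have h10 : (N : ℝ) / 4 * 4 ≤ (U * L) * L := by
    apply mul_le_mul h8 h1 (by norm_num) (by positivity)
  linarith

theorem Big.infinite {C : ℕ} {A : Set ℕ} (h : Big C A) : A.Infinite := by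
  classical
  intro hfin
  unfold Big at h
  have h1 : ∀ᶠ N : ℕ in atTop, ((hfin.toFinset.card : ℝ) + 1) * Real.log N ^ C < N := by
    have h2 : Tendsto (fun x : ℝ => Real.log x ^ C / x) atTop (𝓝 0) := by
      have := (Real.isLittleO_pow_log_id_atTop (n := C)).tendsto_div_nhds_zero
      simpa using this
    have h3 := h2.comp tendsto_natCast_atTop_atTop (α := ℕ)
    filter_upwards [h3.eventually (Iio_mem_nhds (show (0 : ℝ) < 1 / ((hfin.toFinset.card : ℝ) + 1) by positivity)),
      eventually_ge_atTop 1] with N h4 h5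
    have hN : (0 : ℝ) < N := by exact_mod_cast h5
    have h6 : Real.log (N : ℝ) ^ C / N < 1 / ((hfin.toFinset.card : ℝ) + 1) := h4
    rw [div_lt_div_iff₀ hN (by positivity)] at h6
    linarith
  refine h (h1.mono fun N h2 h3 => ?_)
  have h4 : ((upTo A N).card : ℝ) ≤ hfin.toFinset.card + 1 := by
    have h5 : (upTo A N).card ≤ hfin.toFinset.card := by
      apply Finset.card_le_card
      intro n hn
      rw [mem_upTo] at hn
      rw [Set.Finite.mem_toFinset]
      exact hn.2
    have : ((upTo A N).card : ℝ) ≤ hfin.toFinset.card := by exact_mod_cast h5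
    linarith
  have hlog : 0 ≤ Real.log (N : ℝ) := Real.log_natCast_nonneg N
  have h5 := mul_le_mul_of_nonneg_right h4 (pow_nonneg hlog C)
  linarith

theorem rho_pos {r : ℕ} {α : Fin r → ℝ} (hα : ∀ i, 0 < α i) (i : ℕ) : 0 < rho α i := by
  unfold rho
  refine Finset.prod_pos fun k _ => ?_
  split_ifs with h
  · exact hα _
  · exact one_pos

/-- chains for almost all ratios -/
theorem chains (hG : S_GEN) (r : ℕ) : ∀ᵐ α : Fin r → ℝ, (∀ i, 0 < α i) →
    Big (5 * r + 2) {n : ℕ | ∀ i : ℕ, i ≤ 2 * r → (⌊rho α i * n⌋₊ + 1).Prime} := by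
  filter_upwards [t_CH hG r 2 _ big_primes 1 one_pos 1] with α hα hpos
  have h1 := hα hpos
  have e : {n : ℕ | n ∈ {n : ℕ | (n + 1).Prime} ∧ ∀ i : ℕ, 1 ≤ i → i ≤ 2 * r → PP (⌊1 * rho α i * n⌋ + 1)} =
      {n : ℕ | ∀ i : ℕ, i ≤ 2 * r → (⌊rho α i * n⌋₊ + 1).Prime} := by
    ext n
    constructor
    · rintro ⟨h2, h3⟩ i hi
      rcases Nat.eq_zero_or_pos i with h4 | h4
      · rw [h4, rho_zero, one_mul, Nat.floor_natCast]
        exact h2
      · have h5 := h3 i h4 hi
        rw [one_mul] at h5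
        exact (PP_floor (mul_nonneg (rho_pos hpos i).le (Nat.cast_nonneg n))).1 h5
    · intro h2
      refine ⟨?_, fun i h3 h4 => ?_⟩
      · have h5 := h2 0 (Nat.zero_le _)
        rw [rho_zero, one_mul, Nat.floor_natCast] at h5
        exact h5
      · rw [one_mul]
        exact (PP_floor (mul_nonneg (rho_pos hpos i).le (Nat.cast_nonneg n))).2 (h2 i h4)
  change Big (2 + 5 * r) {n : ℕ | n ∈ {n : ℕ | (n + 1).Prime} ∧
    ∀ i : ℕ, 1 ≤ i → i ≤ 2 * r → PP (⌊1 * rho α i * n⌋ + 1)} at h1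
  rw [e] at h1
  rwa [add_comm (5 * r) 2]

/-- one ratio -/
theorem three (hG : S_GEN) : ∀ᵐ α : ℝ, 0 < α →
    {n : ℕ | (n + 1).Prime ∧ (⌊α * n⌋₊ + 1).Prime ∧ (⌊α ^ 2 * n⌋₊ + 1).Prime}.Infinite := by
  filter_upwards [hG 2 _ big_primes 1 2 1 1 1 1 one_ne_zero two_ne_zero (by norm_num) one_pos one_pos] with α hα hpos
  refine (hα hpos).infinite.mono ?_
  rintro n ⟨h1, h2, h3⟩
  refine ⟨h1, ?_, ?_⟩
  · have e : (1 : ℝ) * α ^ (1 : ℝ) * n = α * n := by rw [Real.rpow_one, one_mul]
    rw [e] at h2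
    exact (PP_floor (by positivity)).1 h2
  · have e : (1 : ℝ) * α ^ (2 : ℝ) * n = α ^ 2 * n := by rw [Real.rpow_two, one_mul]
    rw [e] at h3
    exact (PP_floor (by positivity)).1 h3

end Pool.Agent.D0H61.CC
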