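import Mathlib
import Pool.Agent.D0H61.CC.Fin

/-! Triangular systems of pairs of monomials in the ratios. -/

set_option autoImplicit false

namespace Pool.Agent.D0H61.CC

open Filter Topology MeasureTheory Finset

/-- the monomial `γ ∏ α_i ^ (e i)` with real exponents -/
noncomputable def mono {r : ℕ} (γ : ℝ) (e α : Fin r → ℝ) : ℝ := γ * ∏ i, α i ^ e i

theorem mono_cons {r : ℕ} (γ : ℝ) (e : Fin (r + 1) → ℝ) (t : ℝ) (β : Fin r → ℝ) :
    mono γ e (Fin.cons t β : Fin (r + 1) → ℝ) = mono (γ * t ^ e 0) (fun i => e i.succ) β := by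
  unfold mono
  rw [Fin.prod_univ_succ]
  simp only [Fin.cons_zero, Fin.cons_succ]
  ring

theorem mono_zero {r : ℕ} (γ : ℝ) (e β : Fin r → ℝ) (he : ∀ i, e i = 0) : mono γ e β = γ := by
  unfold mono
  simp [he]

theorem mono_meas {r : ℕ} (γ : ℝ) (e : Fin r → ℝ) : Measurable (fun α : Fin r → ℝ => mono γ e α) := by
  unfold mono
  refine Measurable.const_mul (Finset.measurable_prod _ fun i _ => ?_) γ
  exact (measurable_pi_apply i).pow_const _

/-- the elements of `A` at which all the integer parts are primes -/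
def sysS (A : Set ℕ) {r m : ℕ} (γ : Fin m → Fin 2 → ℝ) (e : Fin m → Fin 2 → Fin r → ℝ) (b : Fin m → Fin 2 → ℤ)
    (α : Fin r → ℝ) : Set ℕ :=
  {n : ℕ | n ∈ A ∧ ∀ j s, PP (⌊mono (γ j s) (e j s) α * n⌋ + b j s)}

theorem sysS_meas (A : Set ℕ) {r m : ℕ} (γ : Fin m → Fin 2 → ℝ) (e : Fin m → Fin 2 → Fin r → ℝ)
    (b : Fin m → Fin 2 → ℤ) (n : ℕ) : MeasurableSet {α : Fin r → ℝ | n ∈ sysS A γ e b α} := by
  by_cases hn : n ∈ A
  · have e1 : {α : Fin r → ℝ | n ∈ sysS A γ e b α} =
        ⋂ j : Fin m, ⋂ s : Fin 2, {α : Fin r → ℝ | PP (⌊mono (γ j s) (e j s) α * n⌋ + b j s)} := by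
      ext α
      simp only [Set.mem_iInter]
      constructor
      · intro h j s
        exact h.2 j s
      · intro h
        exact ⟨hn, h⟩
    rw [e1]
    refine MeasurableSet.iInter fun j => MeasurableSet.iInter fun s => ?_
    have h2 : Measurable fun α : Fin r → ℝ => ⌊mono (γ j s) (e j s) α * n⌋ :=
      ((mono_meas _ _).mul_const _).floor
    exact h2 (MeasurableSet.of_discrete (s := {z : ℤ | PP (z + b j s)}))
  · have e1 : {α : Fin r → ℝ | n ∈ sysS A γ e b α} = ∅ := by
      ext α
      constructor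
      · intro h
        exact absurd h.1 hn
      · intro h
        exact absurd h (Set.notMem_empty _)
    rw [e1]
    exact MeasurableSet.empty

theorem sys_main (hG : S_GEN) : ∀ (r C : ℕ) (A : Set ℕ), Big C A → ∀ (γ : Fin r → Fin 2 → ℝ)
    (e : Fin r → Fin 2 → Fin r → ℝ) (b : Fin r → Fin 2 → ℤ), (∀ j s, 0 < γ j s) →
    (∀ j s i, j < i → e j s i = 0) → (∀ j s, e j s j ≠ 0) → (∀ j, e j 0 j ≠ e j 1 j) →
    ∀ᵐ α : Fin r → ℝ, (∀ i, 0 < α i) → Big (C + 5 * r) (sysS A γ e b α) := by
  intro r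
  induction r with
  | zero =>
    intro C A hA γ e b _ _ _ _
    refine Filter.Eventually.of_forall fun α _ => ?_
    have e1 : sysS A γ e b α = A := by
      ext n
      constructor
      · exact fun h => h.1
      · exact fun h => ⟨h, fun j => Fin.elim0 j⟩
    rw [e1]
    exact hA
  | succ r ih =>
    intro C A hA γ e b hγ h0 h1 h2
    have hm : MeasurableSet {α : Fin (r + 1) → ℝ | (∀ i, 0 < α i) → Big (C + 5 * (r + 1)) (sysS A γ e b α)} := by
      have h3 : MeasurableSet {α : Fin (r + 1) → ℝ | ∀ i, 0 < α i} := by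
        have e1 : {α : Fin (r + 1) → ℝ | ∀ i, 0 < α i} = ⋂ i, {α : Fin (r + 1) → ℝ | 0 < α i} := by
          ext α
          simp only [Set.mem_iInter]
          exact Iff.rfl
        rw [e1]
        exact MeasurableSet.iInter fun i => measurableSet_lt measurable_const (measurable_pi_apply i)
      have h4 : MeasurableSet {α : Fin (r + 1) → ℝ | Big (C + 5 * (r + 1)) (sysS A γ e b α)} :=
        big_meas _ _ fun n => sysS_meas A γ e b n
      have e1 : {α : Fin (r + 1) → ℝ | (∀ i, 0 < α i) → Big (C + 5 * (r + 1)) (sysS A γ e b α)} =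
          {α : Fin (r + 1) → ℝ | ∀ i, 0 < α i}ᶜ ∪
            {α : Fin (r + 1) → ℝ | Big (C + 5 * (r + 1)) (sysS A γ e b α)} := by
        ext α
        rw [Set.mem_union, Set.mem_compl_iff]
        exact imp_iff_not_or
      rw [e1]
      exact h3.compl.union h4
    refine Pool.Agent.D0H91.MG.fubini_ae' hm ?_
    filter_upwards [hG C A hA (e 0 0 0) (e 0 1 0) (γ 0 0) (γ 0 1) (b 0 0) (b 0 1) (h1 0 0) (h1 0 1) (h2 0)
      (hγ 0 0) (hγ 0 1)] with t ht
    by_cases ht0 : 0 < t
    · filter_upwards [ih (C + 5) _ (ht ht0) (fun j s => γ j.succ s * t ^ e j.succ s 0)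
        (fun j s i => e j.succ s i.succ) (fun j s => b j.succ s)
        (fun j s => mul_pos (hγ _ _) (Real.rpow_pos_of_pos ht0 _))
        (fun j s i hji => h0 _ _ _ (Fin.succ_lt_succ_iff.2 hji)) (fun j s => h1 _ _) (fun j => h2 _)] with β hβ hpos
      have h3 : ∀ i, 0 < β i := by
        intro i
        have := hpos i.succ
        rwa [Fin.cons_succ] at this
      have h4 := hβ h3
      have e1 : C + 5 * (r + 1) = C + 5 + 5 * r := by ring
      rw [e1]
      refine Big.congr ?_ h4
      have hz : ∀ s, mono (γ 0 s) (e 0 s) (Fin.cons t β : Fin (r + 1) → ℝ) = γ 0 s * t ^ e 0 s 0 := by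
        intro s
        rw [mono_cons]
        exact mono_zero _ _ _ fun i => h0 0 s i.succ (Fin.succ_pos i)
      ext n
      constructor
      · rintro ⟨⟨g1, g2, g3⟩, g4⟩
        refine ⟨g1, fun j s => ?_⟩
        refine Fin.cases ?_ (fun j' => ?_) j
        · rw [hz]
          fin_cases s
          · exact g2
          · exact g3
        · have := g4 j' s
          rwa [← mono_cons] at this
      · rintro ⟨g1, g2⟩
        refine ⟨⟨g1, ?_, ?_⟩, fun j s => ?_⟩
        · have := g2 0 0
          rwa [hz] at this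
        · have := g2 0 1
          rwa [hz] at this
        · have := g2 j.succ s
          rwa [mono_cons] at this
    · refine Filter.Eventually.of_forall fun β hpos => ?_
      exact absurd (by simpa using hpos 0) ht0

end Pool.Agent.D0H61.CC
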