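import Pool.Agent.D0H61.CC.Core
import Pool.Agent.D0H61.CC.Sys
import Pool.Agent.D0H87.CC.Tri
import Pool.Agent.D0H87.CC.Ms
import Pool.Agent.D0H9.CC.Osc
import Pool.Agent.D0H9.CC.Lo
import Pool.Agent.D0H35.CC.Geo
import Pool.Agent.D0H96.CC.Hat
import Pool.Agent.D0H96.CC.Sv
import Pool.Agent.D0H65.CC.One
import Pool.Agent.D0H65.CC.Gen

/-! Everything except the count of the triples (`S_CNT`). -/

set_option autoImplicit false

namespace Pool.Agent.D0H61.CC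

theorem gen_of_cnt (h : S_CNT) : S_GEN :=
  Pool.Agent.D0H65.CC.t_GEN (Pool.Agent.D0H65.CC.t_ONE
    (t_CORE (Pool.Agent.D0H35.CC.t_GEO h)
      (Pool.Agent.D0H96.CC.t_SV (Pool.Agent.D0H9.CC.t_LO Pool.Agent.D0H9.CC.t_OSC)
        (Pool.Agent.D0H96.CC.t_HAT Pool.Agent.D0H87.CC.t_TRI)))
    Pool.Agent.D0H87.CC.t_DEN Pool.Agent.D0H87.CC.t_WIN)

end Pool.Agent.D0H61.CC
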